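import Pool.Agent.Lib_helper52.EPS.Defs
import Pool.Agent.Lib_helper33.EPS.GI
import Pool.Agent.Lib_helper89.EPS.A0
import Pool.Agent.Lib_helper33.EPS.A3
import Pool.Agent.Lib_helper44.EPS.A7
set_option autoImplicit false

namespace Pool.Agent.EPS

open MeasureTheory Set Filter Topology

/-- a bound for the logarithm of the derivative of a transport map -/
theorem a8_abs {a b m M : ℝ} {f T : ℝ → ℝ} (h : Nice a b m M f) (hT : Tr a b f T) (z : ℝ) :
    |Real.log (ga z / f (T z))| ≤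
      (|Real.log M| + |Real.log (1 / m)| + Real.pi) * (1 + z ^ 2) := by
  obtain ⟨h1, h2, h3⟩ := tr_bd h hT z
  have h4 : Real.log (ga z / f (T z)) ≤ Real.log (1 / m) := Real.log_le_log h1 h2
  have k1 := le_abs_self (Real.log M)
  have k2 := le_abs_self (Real.log (1 / m))
  have k3 := abs_nonneg (Real.log M)
  have k4 := abs_nonneg (Real.log (1 / m))
  have k5 := Real.pi_pos
  have k6 := sq_nonneg z
  have k7 : 0 ≤ |Real.log M| * z ^ 2 := mul_nonneg k3 k6
  have k8 : 0 ≤ |Real.log (1 / m)| * z ^ 2 := mul_nonneg k4 k6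
  have k9 : 0 ≤ Real.pi * z ^ 2 := mul_nonneg k5.le k6
  rw [abs_le]
  constructor
  · nlinarith
  · nlinarith

theorem a8_cont {a b m M : ℝ} {f T : ℝ → ℝ} (h : Nice a b m M f) (hT : Tr a b f T) :
    Continuous (fun z => Real.log (ga z / f (T z))) :=
  (tr_cont h hT).2.2.log (fun z => (tr_bd h hT z).1.ne')

theorem a8_int {a b m M : ℝ} {f T : ℝ → ℝ} (h : Nice a b m M f) (hT : Tr a b f T) :
    Integrable (fun z => Real.log (ga z / f (T z)) * ga z) := by
  apply Integrable.mono' (ga_int1.const_mul (|Real.log M| + |Real.log (1 / m)| + Real.pi))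
    ((a8_cont h hT).mul ga_cont).aestronglyMeasurable
  apply Eventually.of_forall
  intro z
  show |Real.log (ga z / f (T z)) * ga z| ≤ _
  rw [abs_mul, abs_of_pos (ga_pos z)]
  have h1 := mul_le_mul_of_nonneg_right (a8_abs h hT z) (ga_pos z).le
  calc _ ≤ _ := h1
    _ = _ := by ring

/-- the logarithm of the derivative of the rotated sum -/
theorem log_der {a b m M a' b' m' M' : ℝ} {f g T U : ℝ → ℝ} (hf : Nice a b m M f)
    (hg : Nice a' b' m' M' g) (hT : Tr a b f T) (hU : Tr a' b' g U) (l : ℝ) (h0 : 0 < l)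
    (h1 : l < 1) :
    Integrable (fun p : ℝ × ℝ => Real.log (Dx (Real.sqrt l) (Real.sqrt (1 - l)) f g T U p.1 p.2) *
      (ga p.1 * ga p.2)) ∧
    l * (∫ z, Real.log (ga z / f (T z)) * ga z) + (1 - l) * (∫ z, Real.log (ga z / g (U z)) * ga z)
      + 1 / 2 * Real.binEntropy l ≤
      ∫ p : ℝ × ℝ, Real.log (Dx (Real.sqrt l) (Real.sqrt (1 - l)) f g T U p.1 p.2) *
        (ga p.1 * ga p.2) := by
  set c : ℝ := Real.sqrt l with hc
  set s : ℝ := Real.sqrt (1 - l) with hs
  have hc0 : 0 < c := Real.sqrt_pos.2 h0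
  have hs0 : 0 < s := Real.sqrt_pos.2 (by linarith)
  have hcs : c ^ 2 + s ^ 2 = 1 := by
    rw [hc, hs, Real.sq_sqrt h0.le, Real.sq_sqrt (by linarith)]; ring
  set F : ℝ → ℝ := fun z => Real.log (ga z / f (T z)) with hF
  set H : ℝ → ℝ := fun z => Real.log (ga z / g (U z)) with hH
  have iF : Integrable (fun z => F z * ga z) := a8_int hf hT
  have iH : Integrable (fun z => H z * ga z) := a8_int hg hU
  obtain ⟨⟨f1, f2⟩, _⟩ := gauss_marg c s hcs F iF
  obtain ⟨_, ⟨g1, g2⟩⟩ := gauss_marg c s hcs H iH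
  have one1 : Integrable (fun z : ℝ => (fun _ : ℝ => (1 : ℝ)) z * ga z) := by
    simpa using ga_int.1
  obtain ⟨⟨o1, o2⟩, _⟩ := gauss_marg c s hcs (fun _ => (1 : ℝ)) one1
  simp only [one_mul] at o1 o2
  rw [ga_int.2] at o2
  -- pointwise lower bound
  have low : ∀ x y : ℝ, l * F (c * x - s * y) + (1 - l) * H (s * x + c * y) +
      1 / 2 * Real.binEntropy l ≤ Real.log (Dx c s f g T U x y) := by
    intro x y
    exact amgm l h0 h1 _ _ (tr_bd hf hT _).1 (tr_bd hg hU _).1
  have up : ∀ x y : ℝ, Real.log (Dx c s f g T U x y) ≤ Real.log (c * (1 / m) + s * (1 / m')) := by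
    intro x y
    obtain ⟨p1, p2, _⟩ := tr_bd hf hT (c * x - s * y)
    obtain ⟨q1, q2, _⟩ := tr_bd hg hU (s * x + c * y)
    apply Real.log_le_log
    · exact add_pos (mul_pos hc0 p1) (mul_pos hs0 q1)
    · exact add_le_add (mul_le_mul_of_nonneg_left p2 hc0.le)
        (mul_le_mul_of_nonneg_left q2 hs0.le)
  set K1 : ℝ := |Real.log M| + |Real.log (1 / m)| + Real.pi with hK1
  set K2 : ℝ := |Real.log M'| + |Real.log (1 / m')| + Real.pi with hK2
  set K3 : ℝ := |Real.log (c * (1 / m) + s * (1 / m'))| with hK3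
  have K10 : 0 ≤ K1 := by rw [hK1]; positivity
  have K20 : 0 ≤ K2 := by rw [hK2]; positivity
  have K30 : 0 ≤ K3 := abs_nonneg _
  have ent0 : 0 ≤ Real.binEntropy l := Real.binEntropy_nonneg h0.le h1.le
  have bound : ∀ x y : ℝ, |Real.log (Dx c s f g T U x y)| ≤
      (K1 + K2 + K3) * (1 + x ^ 2 + y ^ 2) := by
    intro x y
    have hz : (c * x - s * y) ^ 2 + (s * x + c * y) ^ 2 = x ^ 2 + y ^ 2 := by
      have : (c * x - s * y) ^ 2 + (s * x + c * y) ^ 2 = (c ^ 2 + s ^ 2) * (x ^ 2 + y ^ 2) := by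
        ring
      rw [this, hcs, one_mul]
    have b1 := abs_le.1 (a8_abs hf hT (c * x - s * y))
    have b2 := abs_le.1 (a8_abs hg hU (s * x + c * y))
    rw [← hK1] at b1
    rw [← hK2] at b2
    have l1 := low x y
    have u1 := up x y
    have u2 : Real.log (c * (1 / m) + s * (1 / m')) ≤ K3 := le_abs_self _
    have e1 := b1.1
    have e2 := b2.1
    have hx := sq_nonneg x
    have hy := sq_nonneg y
    have hA := sq_nonneg (c * x - s * y)
    have hB := sq_nonneg (s * x + c * y)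
    have w1 : K1 * (1 + (c * x - s * y) ^ 2) ≤ K1 * (1 + x ^ 2 + y ^ 2) :=
      mul_le_mul_of_nonneg_left (by linarith) K10
    have w2 : K2 * (1 + (s * x + c * y) ^ 2) ≤ K2 * (1 + x ^ 2 + y ^ 2) :=
      mul_le_mul_of_nonneg_left (by linarith) K20
    have w3 : K3 ≤ K3 * (1 + x ^ 2 + y ^ 2) := by nlinarith
    have w4 : 0 ≤ K1 * (1 + x ^ 2 + y ^ 2) := by positivity
    have w5 : 0 ≤ K2 * (1 + x ^ 2 + y ^ 2) := by positivity
    have w6 : 0 ≤ K3 * (1 + x ^ 2 + y ^ 2) := by positivity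
    have v1 : -(K1 * (1 + x ^ 2 + y ^ 2)) ≤ F (c * x - s * y) := by
      have : F (c * x - s * y) = Real.log (ga (c * x - s * y) / f (T (c * x - s * y))) := rfl
      rw [this]; linarith
    have v2 : -(K2 * (1 + x ^ 2 + y ^ 2)) ≤ H (s * x + c * y) := by
      have : H (s * x + c * y) = Real.log (ga (s * x + c * y) / g (U (s * x + c * y))) := rfl
      rw [this]; linarith
    rw [abs_le]
    constructor
    · have t1 := mul_le_mul_of_nonneg_left v1 h0.le
      rw [mul_neg] at t1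
      have t2 : l * (K1 * (1 + x ^ 2 + y ^ 2)) ≤ K1 * (1 + x ^ 2 + y ^ 2) :=
        mul_le_of_le_one_left w4 h1.le
      have t3 := mul_le_mul_of_nonneg_left v2 (show 0 ≤ 1 - l by linarith)
      rw [mul_neg] at t3
      have t4 : (1 - l) * (K2 * (1 + x ^ 2 + y ^ 2)) ≤ K2 * (1 + x ^ 2 + y ^ 2) :=
        mul_le_of_le_one_left w5 (by linarith)
      linarith
    · linarith
  have cD : Continuous (fun p : ℝ × ℝ => Dx c s f g T U p.1 p.2) := by
    have c1 := (tr_cont hf hT).2.2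
    have c2 := (tr_cont hg hU).2.2
    have d1 : Continuous (fun p : ℝ × ℝ => c * p.1 - s * p.2) := by fun_prop
    have d2 : Continuous (fun p : ℝ × ℝ => s * p.1 + c * p.2) := by fun_prop
    exact (continuous_const.mul (c1.comp d1)).add (continuous_const.mul (c2.comp d2))
  have pD : ∀ x y : ℝ, 0 < Dx c s f g T U x y := fun x y =>
    add_pos (mul_pos hc0 (tr_bd hf hT _).1) (mul_pos hs0 (tr_bd hg hU _).1)
  have cL : Continuous (fun p : ℝ × ℝ => Real.log (Dx c s f g T U p.1 p.2)) :=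
    cD.log (fun p => (pD p.1 p.2).ne')
  have cG : Continuous (fun p : ℝ × ℝ => ga p.1 * ga p.2) :=
    (ga_cont.comp continuous_fst).mul (ga_cont.comp continuous_snd)
  have iD : Integrable (fun p : ℝ × ℝ => Real.log (Dx c s f g T U p.1 p.2) *
      (ga p.1 * ga p.2)) := by
    apply Integrable.mono' (ga_int2.const_mul (K1 + K2 + K3)) (cL.mul cG).aestronglyMeasurable
    apply Eventually.of_forall
    intro p
    show |Real.log (Dx c s f g T U p.1 p.2) * (ga p.1 * ga p.2)| ≤ _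
    have hp : 0 ≤ ga p.1 * ga p.2 := mul_nonneg (ga_pos _).le (ga_pos _).le
    rw [abs_mul, abs_of_nonneg hp]
    calc _ ≤ _ := mul_le_mul_of_nonneg_right (bound p.1 p.2) hp
      _ = _ := by ring
  refine ⟨iD, ?_⟩
  have iL : Integrable (fun p : ℝ × ℝ => (l * (F (c * p.1 - s * p.2) * (ga p.1 * ga p.2)) +
      (1 - l) * (H (s * p.1 + c * p.2) * (ga p.1 * ga p.2))) +
      1 / 2 * Real.binEntropy l * (ga p.1 * ga p.2)) :=
    ((f1.const_mul l).add (g1.const_mul (1 - l))).add (o1.const_mul _)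
  have eL : ∫ p : ℝ × ℝ, ((l * (F (c * p.1 - s * p.2) * (ga p.1 * ga p.2)) +
      (1 - l) * (H (s * p.1 + c * p.2) * (ga p.1 * ga p.2))) +
      1 / 2 * Real.binEntropy l * (ga p.1 * ga p.2)) =
      l * (∫ z, F z * ga z) + (1 - l) * (∫ z, H z * ga z) + 1 / 2 * Real.binEntropy l := by
    have j1 : Integrable (fun p : ℝ × ℝ => l * (F (c * p.1 - s * p.2) * (ga p.1 * ga p.2)) +
      (1 - l) * (H (s * p.1 + c * p.2) * (ga p.1 * ga p.2))) :=
      (f1.const_mul l).add (g1.const_mul (1 - l))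
    rw [integral_add j1 (o1.const_mul _), integral_add (f1.const_mul l) (g1.const_mul (1 - l)),
      integral_const_mul, integral_const_mul, integral_const_mul, f2, g2, o2, mul_one]
  rw [← eL]
  apply integral_mono iL iD
  intro p
  have hp : 0 ≤ ga p.1 * ga p.2 := mul_nonneg (ga_pos _).le (ga_pos _).le
  have h3 := mul_le_mul_of_nonneg_right (low p.1 p.2) hp
  calc _ = (l * F (c * p.1 - s * p.2) + (1 - l) * H (s * p.1 + c * p.2) +
      1 / 2 * Real.binEntropy l) * (ga p.1 * ga p.2) := by ring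
    _ ≤ _ := h3

end Pool.Agent.EPS
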